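import Pool.Agent.Helper60.SB.Defs5
import Pool.Agent.Helper80.SB.Signs

/-!
Algebra of the Riesz products (MP_7fc85e_an, module P3).
-/

open Finset
open scoped Real

namespace Pool.Agent.Helper11.SB

open Pool.Agent.Helper60.SB Pool.Agent.Helper80.SB

section prods

variable {ι : Type*} [DecidableEq ι]

/-- zeroth order expansion of a product -/
theorem prod_add_sub_prod (B : Finset ι) (p q s : ι → ℝ) (hp : ∀ R ∈ B, |p R| ≤ 1)
    (hq : ∀ R ∈ B, |q R| ≤ s R) :
    |∏ R ∈ B, (p R + q R)| ≤ Real.exp (∑ R ∈ B, s R) ∧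
    |∏ R ∈ B, (p R + q R) - ∏ R ∈ B, p R| ≤ (∑ R ∈ B, s R) * Real.exp (∑ R ∈ B, s R) := by
  induction B using Finset.induction_on with
  | empty => simp
  | insert j B hj ih =>
    obtain ⟨h1, h2⟩ := ih (fun R hR => hp R (mem_insert_of_mem hR))
      (fun R hR => hq R (mem_insert_of_mem hR))
    rw [prod_insert hj, prod_insert hj, sum_insert hj]
    have hpj := hp j (mem_insert_self _ _)
    have hqj := hq j (mem_insert_self _ _)
    have hsj : 0 ≤ s j := (abs_nonneg _).trans hqj
    have hS : 0 ≤ ∑ R ∈ B, s R :=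
      sum_nonneg (fun R hR => (abs_nonneg _).trans (hq R (mem_insert_of_mem hR)))
    set S := ∑ R ∈ B, s R with hSdef
    set X := ∏ R ∈ B, (p R + q R) with hX
    set Y := ∏ R ∈ B, p R with hY
    have hadd : |p j + q j| ≤ 1 + s j := (abs_add_le _ _).trans (add_le_add hpj hqj)
    have he : 1 + s j ≤ Real.exp (s j) := by
      have := Real.add_one_le_exp (s j); linarith
    have hexp : Real.exp (s j + S) = Real.exp (s j) * Real.exp S := Real.exp_add _ _
    have hE := Real.exp_pos S
    constructor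
    · rw [abs_mul, hexp]
      exact mul_le_mul (hadd.trans he) h1 (abs_nonneg _) (Real.exp_pos _).le
    · have e1 : (p j + q j) * X - p j * Y = p j * (X - Y) + q j * X := by ring
      rw [e1]
      have a1 : |p j * (X - Y)| ≤ S * Real.exp S := by
        rw [abs_mul]
        calc |p j| * |X - Y| ≤ 1 * |X - Y| := by gcongr
          _ ≤ _ := by rw [one_mul]; exact h2
      have a2 : |q j * X| ≤ s j * Real.exp S := by
        rw [abs_mul]; gcongr
      refine (abs_add_le _ _).trans ?_
      have h3 : Real.exp S ≤ Real.exp (s j + S) := Real.exp_le_exp.2 (by linarith)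
      have h4 : (s j + S) * Real.exp S ≤ (s j + S) * Real.exp (s j + S) := by gcongr
      nlinarith

/-- first order expansion of a product -/
theorem prod_add_sub_first (B : Finset ι) (p q s : ι → ℝ) (hp : ∀ R ∈ B, |p R| ≤ 1)
    (hq : ∀ R ∈ B, |q R| ≤ s R) :
    |∏ R ∈ B, (p R + q R) - ∏ R ∈ B, p R - ∑ R ∈ B, q R * ∏ R' ∈ B.erase R, p R'| ≤
      (∑ R ∈ B, s R) ^ 2 / 2 * Real.exp (∑ R ∈ B, s R) := by
  induction B using Finset.induction_on with
  | empty => simp
  | insert j B hj ih =>
    have hp' := fun R hR => hp R (mem_insert_of_mem hR)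
    have hq' := fun R hR => hq R (mem_insert_of_mem hR)
    have h2 := (prod_add_sub_prod B p q s hp' hq').2
    have h3 := ih hp' hq'
    rw [prod_insert hj, prod_insert hj, sum_insert hj, sum_insert hj, erase_insert hj]
    have hpj := hp j (mem_insert_self _ _)
    have hqj := hq j (mem_insert_self _ _)
    have hsj : 0 ≤ s j := (abs_nonneg _).trans hqj
    have hS : 0 ≤ ∑ R ∈ B, s R :=
      sum_nonneg (fun R hR => (abs_nonneg _).trans (hq R (mem_insert_of_mem hR)))
    have e0 : ∑ R ∈ B, q R * ∏ R' ∈ (insert j B).erase R, p R' =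
        p j * ∑ R ∈ B, q R * ∏ R' ∈ B.erase R, p R' := by
      rw [mul_sum]
      refine sum_congr rfl (fun R hR => ?_)
      have hne : R ≠ j := fun h => hj (h ▸ hR)
      rw [erase_insert_of_ne hne.symm, prod_insert (fun h => hj (mem_of_mem_erase h))]
      ring
    rw [e0]
    set S := ∑ R ∈ B, s R with hSdef
    set X := ∏ R ∈ B, (p R + q R) with hX
    set Y := ∏ R ∈ B, p R with hY
    set Z := ∑ R ∈ B, q R * ∏ R' ∈ B.erase R, p R' with hZ
    have e1 : (p j + q j) * X - p j * Y - (q j * Y + p j * Z) =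
        p j * (X - Y - Z) + q j * (X - Y) := by ring
    rw [e1]
    have a1 : |p j * (X - Y - Z)| ≤ S ^ 2 / 2 * Real.exp S := by
      rw [abs_mul]
      calc |p j| * |X - Y - Z| ≤ 1 * |X - Y - Z| := by gcongr
        _ ≤ _ := by rw [one_mul]; exact h3
    have a2 : |q j * (X - Y)| ≤ s j * (S * Real.exp S) := by
      rw [abs_mul]; gcongr
    refine (abs_add_le _ _).trans ?_
    have hE := Real.exp_pos S
    have h4 : Real.exp S ≤ Real.exp (s j + S) := Real.exp_le_exp.2 (by linarith)
    have h5 : (s j + S) ^ 2 / 2 * Real.exp S ≤ (s j + S) ^ 2 / 2 * Real.exp (s j + S) := by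
      gcongr
    have h6 : 0 ≤ s j ^ 2 * Real.exp S := by positivity
    nlinarith

/-- comparison of products of numbers of modulus at most one -/
theorem abs_prod_sub_prod_le (B : Finset ι) (x y : ι → ℝ) (hx : ∀ R ∈ B, |x R| ≤ 1)
    (hy : ∀ R ∈ B, |y R| ≤ 1) :
    |∏ R ∈ B, x R| ≤ 1 ∧ |∏ R ∈ B, x R - ∏ R ∈ B, y R| ≤ ∑ R ∈ B, |x R - y R| := by
  induction B using Finset.induction_on with
  | empty => simp
  | insert j B hj ih =>
    obtain ⟨h1, h2⟩ := ih (fun R hR => hx R (mem_insert_of_mem hR))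
      (fun R hR => hy R (mem_insert_of_mem hR))
    have hxj := hx j (mem_insert_self _ _)
    have hyj := hy j (mem_insert_self _ _)
    rw [prod_insert hj, prod_insert hj, sum_insert hj]
    set X := ∏ R ∈ B, x R
    set Y := ∏ R ∈ B, y R
    constructor
    · rw [abs_mul]
      exact mul_le_one₀ hxj (abs_nonneg _) h1
    · have e1 : x j * X - y j * Y = (x j - y j) * X + y j * (X - Y) := by ring
      rw [e1]
      refine (abs_add_le _ _).trans ?_
      rw [abs_mul, abs_mul]
      have a1 : |x j - y j| * |X| ≤ |x j - y j| * 1 := by gcongr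
      have a2 : |y j| * |X - Y| ≤ 1 * |X - Y| := by gcongr
      linarith

end prods

section avg

variable {ι : Type*} [Fintype ι] [DecidableEq ι]

theorem av_sum' {J : Type*} (s : Finset J) (f : J → (ι → Bool) → ℝ) :
    av (fun β => ∑ j ∈ s, f j β) = ∑ j ∈ s, av (f j) := by
  unfold av
  rw [sum_comm, sum_div]

theorem av_congr {f g : (ι → Bool) → ℝ} (h : ∀ β, f β = g β) : av f = av g := by
  have : f = g := funext h
  rw [this]

/-- change of all signs -/
def negE : (ι → Bool) ≃ (ι → Bool) :=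
  Function.Involutive.toPerm (fun β j => !β j) (by intro β; simp)

theorem sg_not (b : Bool) : sg (!b) = -sg b := by cases b <;> simp

theorem av_odd (f : (ι → Bool) → ℝ) (hf : ∀ β, f (negE β) = -f β) : av f = 0 := by
  have h1 := av_equiv negE f
  have h2 : av (fun β => f (negE β)) = -av f := by
    rw [av_congr hf]
    have := av_const_mul (-1 : ℝ) f
    simpa using this
  linarith

/-- signed sum over a set of indices -/
def ssum (B : Finset ι) (c : ι → ℝ) (β : ι → Bool) : ℝ := ∑ R ∈ B, sg (β R) * c R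

theorem ssum_flip {B : Finset ι} {j : ι} (hj : j ∉ B) (c : ι → ℝ) (β : ι → Bool) :
    ssum B c (flipE j β) = ssum B c β := by
  unfold ssum
  refine sum_congr rfl (fun R hR => ?_)
  have hne : R ≠ j := fun h => hj (by rw [← h]; exact hR)
  rw [flipE_ne hne]

theorem ssum_insert {B : Finset ι} {j : ι} (hj : j ∉ B) (c : ι → ℝ) (β : ι → Bool) :
    ssum (insert j B) c β = sg (β j) * c j + ssum B c β := by
  unfold ssum
  rw [sum_insert hj]

theorem ssum_neg (B : Finset ι) (c : ι → ℝ) (β : ι → Bool) :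
    ssum B c (negE β) = -ssum B c β := by
  unfold ssum
  rw [← sum_neg_distrib]
  refine sum_congr rfl (fun R _ => ?_)
  have : negE β R = !β R := rfl
  rw [this, sg_not]; ring

theorem av_sin_ssum (B : Finset ι) (c : ι → ℝ) :
    av (fun β : ι → Bool => Real.sin (ssum B c β)) = 0 := by
  apply av_odd
  intro β
  rw [ssum_neg, Real.sin_neg]

theorem av_cos_ssum (B : Finset ι) (c : ι → ℝ) :
    av (fun β : ι → Bool => Real.cos (ssum B c β)) = ∏ R ∈ B, Real.cos (c R) := by
  induction B using Finset.induction_on with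
  | empty =>
    simp only [ssum, sum_empty, Real.cos_zero, prod_empty]
    exact av_const (1 : ℝ)
  | insert j B hj ih =>
    rw [prod_insert hj, ← ih]
    have e1 : ∀ β : ι → Bool, Real.cos (ssum (insert j B) c β) =
        Real.cos (sg (β j) * c j) * Real.cos (ssum B c β) -
          Real.sin (sg (β j) * c j) * Real.sin (ssum B c β) := by
      intro β
      rw [ssum_insert hj, Real.cos_add]
    rw [av_congr e1, av_sub,
      av_coord_mul j (fun b => Real.cos (sg b * c j)) (fun β => Real.cos (ssum B c β))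
        (fun β => by rw [ssum_flip hj]),
      av_coord_mul j (fun b => Real.sin (sg b * c j)) (fun β => Real.sin (ssum B c β))
        (fun β => by rw [ssum_flip hj])]
    simp only [sg_true, sg_false, one_mul, neg_mul, Real.cos_neg, Real.sin_neg]
    ring

theorem av_sg_sin_ssum {B : Finset ι} {j : ι} (hj : j ∈ B) (c : ι → ℝ) :
    av (fun β : ι → Bool => sg (β j) * Real.sin (ssum B c β)) =
      Real.sin (c j) * ∏ R ∈ B.erase j, Real.cos (c R) := by
  have hB : B = insert j (B.erase j) := (insert_erase hj).symm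
  have hj' : j ∉ B.erase j := notMem_erase j B
  have e1 : ∀ β : ι → Bool, sg (β j) * Real.sin (ssum B c β) =
      (sg (β j) * Real.sin (sg (β j) * c j)) * Real.cos (ssum (B.erase j) c β) +
        (sg (β j) * Real.cos (sg (β j) * c j)) * Real.sin (ssum (B.erase j) c β) := by
    intro β
    conv_lhs => rw [hB]
    rw [ssum_insert hj', Real.sin_add]
    ring
  rw [av_congr e1, av_add,
    av_coord_mul j (fun b => sg b * Real.sin (sg b * c j))
      (fun β => Real.cos (ssum (B.erase j) c β)) (fun β => by rw [ssum_flip hj']),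
    av_coord_mul j (fun b => sg b * Real.cos (sg b * c j))
      (fun β => Real.sin (ssum (B.erase j) c β)) (fun β => by rw [ssum_flip hj']),
    av_cos_ssum]
  simp only [sg_true, sg_false, one_mul, neg_mul, Real.cos_neg, Real.sin_neg]
  ring

theorem av_sg (j : ι) : av (fun β : ι → Bool => sg (β j)) = 0 := by
  rw [av_coord j sg]
  simp

theorem av_sg_sg (j j' : ι) :
    av (fun β : ι → Bool => sg (β j) * sg (β j')) = if j = j' then 1 else 0 := by
  split_ifs with h
  · subst h
    rw [av_congr (fun β => sg_mul_self (β j))]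
    exact av_const (1 : ℝ)
  · rw [av_coord_two h sg sg]
    simp

theorem av_lin_mul (b c : ι → ℝ) :
    av (fun β : ι → Bool => (∑ R, sg (β R) * b R) * (∑ R, sg (β R) * c R)) =
      ∑ R, b R * c R := by
  have e1 : ∀ β : ι → Bool, (∑ R, sg (β R) * b R) * (∑ R, sg (β R) * c R) =
      ∑ R, ∑ R', b R * c R' * (sg (β R) * sg (β R')) := by
    intro β
    rw [sum_mul_sum]
    refine sum_congr rfl (fun R _ => sum_congr rfl (fun R' _ => by ring))
  rw [av_congr e1, av_sum']
  refine sum_congr rfl (fun R _ => ?_)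
  rw [av_sum']
  simp_rw [av_const_mul, av_sg_sg]
  simp

end avg

section chaos

variable {ι I P : Type*} [Fintype ι] [DecidableEq ι] [Fintype I] [DecidableEq I]

theorem rp_nonneg (blk : ι → I) (a : ι → P → ℝ) (β : ι → Bool) (x : P) :
    0 ≤ rp blk a β x := by
  unfold rp
  refine prod_nonneg (fun i _ => ?_)
  have := Real.neg_one_le_sin (Gb blk a β i x)
  linarith

theorem Gb_eq (blk : ι → I) (a : ι → P → ℝ) (β : ι → Bool) (i : I) (x : P) :
    Gb blk a β i x = ssum (univ.filter (fun R => blk R = i)) (fun R => a R x) β := rfl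

theorem Gb_congr (blk : ι → I) (a : ι → P → ℝ) (i : I) (x : P) (β β' : ι → Bool)
    (h : ∀ j, blk j = i → β j = β' j) : Gb blk a β i x = Gb blk a β' i x := by
  unfold Gb
  refine sum_congr rfl (fun R hR => ?_)
  rw [h R (mem_filter.1 hR).2]

theorem av_factor (blk : ι → I) (a : ι → P → ℝ) (i : I) (x : P) :
    av (fun β : ι → Bool => 1 + 1 / 2 * Real.sin (Gb blk a β i x)) = 1 := by
  rw [av_add (fun _ : ι → Bool => (1 : ℝ)), av_const_mul, av_const (1 : ℝ)]
  have := av_sin_ssum (univ.filter (fun R => blk R = i)) (fun R => a R x)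
  rw [av_congr (fun β => congrArg Real.sin (Gb_eq blk a β i x)), this]
  ring

theorem av_rp_one (blk : ι → I) (a : ι → P → ℝ) (x : P) :
    av (fun β : ι → Bool => rp blk a β x) = 1 := by
  unfold rp
  rw [av_prod_of_blk blk (fun i β => 1 + 1 / 2 * Real.sin (Gb blk a β i x))]
  · exact prod_eq_one (fun i _ => av_factor blk a i x)
  · intro i β β' h
    change 1 + 1 / 2 * Real.sin (Gb blk a β i x) = 1 + 1 / 2 * Real.sin (Gb blk a β' i x)
    rw [Gb_congr blk a i x β β' h]

theorem filter_and_ne (blk : ι → I) (R : ι) :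
    univ.filter (fun R' => blk R' = blk R ∧ R' ≠ R) =
      (univ.filter (fun R' => blk R' = blk R)).erase R := by
  ext R'
  simp only [mem_filter, mem_univ, true_and, mem_erase]
  tauto

theorem sa_eq (blk : ι → I) (a : ι → P → ℝ) (R : ι) (x : P) : sa blk a R x =
    Real.sin (a R x) * ∏ R' ∈ (univ.filter (fun R' => blk R' = blk R)).erase R,
      Real.cos (a R' x) := by
  unfold sa
  rw [filter_and_ne]

theorem abs_sa_sub_le (blk : ι → I) (a : ι → P → ℝ) (R : ι) (x : P) :
    |sa blk a R x - a R x| ≤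
      |a R x| * ∑ R' ∈ univ.filter (fun R' => blk R' = blk R), a R' x ^ 2 := by
  rw [sa_eq]
  have hR : R ∈ univ.filter (fun R' => blk R' = blk R) := by simp
  rw [← add_sum_erase _ _ hR]
  set B := (univ.filter (fun R' => blk R' = blk R)).erase R with hB
  obtain ⟨h1, h2⟩ := abs_prod_sub_prod_le B (fun R' => Real.cos (a R' x)) (fun _ => 1)
    (fun R' _ => Real.abs_cos_le_one _) (fun _ _ => by simp)
  rw [prod_const_one] at h2
  set C := ∏ R' ∈ B, Real.cos (a R' x) with hC
  have h3 : |C - 1| ≤ ∑ R' ∈ B, a R' x ^ 2 / 2 := by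
    refine h2.trans (sum_le_sum (fun R' _ => ?_))
    rw [abs_sub_comm, abs_of_nonneg (by have := Real.cos_le_one (a R' x); linarith)]
    have := Real.one_sub_sq_div_two_le_cos (x := a R' x)
    linarith
  have h4 : |Real.sin (a R x) - a R x| ≤ |a R x| ^ 3 := by
    rcases le_total 0 (a R x) with h | h
    · have u1 := Real.sin_le h
      have u2 := Real.sin_ge_sub_cube h
      rw [abs_of_nonneg h, abs_sub_comm, abs_of_nonneg (by linarith)]
      have : 0 ≤ a R x ^ 3 := by positivity
      linarith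
    · have h' : 0 ≤ -a R x := by linarith
      have u1 := Real.sin_le h'
      have u2 := Real.sin_ge_sub_cube h'
      rw [Real.sin_neg] at u1 u2
      have e : |a R x| = -a R x := abs_of_nonpos h
      rw [e, abs_of_nonneg (by linarith)]
      have : 0 ≤ (-a R x) ^ 3 := by positivity
      linarith
  have e1 : Real.sin (a R x) * C - a R x = (Real.sin (a R x) - a R x) * C + a R x * (C - 1) := by
    ring
  rw [e1]
  refine (abs_add_le _ _).trans ?_
  rw [abs_mul, abs_mul]
  have h5 : |Real.sin (a R x) - a R x| * |C| ≤ |a R x| ^ 3 * 1 := by gcongr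
  have h6 : |a R x| * |C - 1| ≤ |a R x| * ∑ R' ∈ B, a R' x ^ 2 / 2 := by gcongr
  have h7 : ∑ R' ∈ B, a R' x ^ 2 / 2 ≤ ∑ R' ∈ B, a R' x ^ 2 :=
    sum_le_sum (fun R' _ => by have := sq_nonneg (a R' x); linarith)
  have h8 : |a R x| * ∑ R' ∈ B, a R' x ^ 2 / 2 ≤ |a R x| * ∑ R' ∈ B, a R' x ^ 2 := by gcongr
  have h9 : |a R x| ^ 3 = |a R x| * a R x ^ 2 := by rw [← sq_abs (a R x)]; ring
  rw [mul_add]
  linarith

theorem av_lin_sq (b : ι → ℝ) : av (fun β : ι → Bool => (∑ R, sg (β R) * b R) ^ 2) =
    ∑ R, b R ^ 2 := by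
  have := av_lin_mul b b
  simp_rw [← sq] at this
  exact this

/-- the covariance of the sines of a block -/
noncomputable def Cb (blk : ι → I) (a : ι → P → ℝ) (i : I) (x y : P) : ℝ :=
  av fun β : ι → Bool => Real.sin (Gb blk a β i x) * Real.sin (Gb blk a β i y)

theorem Cb_eq (blk : ι → I) (a : ι → P → ℝ) (i : I) (x y : P) : Cb blk a i x y =
    1 / 2 * (∏ R ∈ univ.filter (fun R => blk R = i), Real.cos (a R x - a R y) -
      ∏ R ∈ univ.filter (fun R => blk R = i), Real.cos (a R x + a R y)) := by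
  unfold Cb
  rw [← av_cos_ssum _ (fun R => a R x - a R y), ← av_cos_ssum _ (fun R => a R x + a R y),
    ← av_sub, ← av_const_mul]
  refine av_congr (fun β => ?_)
  have e1 : ssum (univ.filter (fun R => blk R = i)) (fun R => a R x - a R y) β =
      Gb blk a β i x - Gb blk a β i y := by
    unfold ssum Gb
    rw [← sum_sub_distrib]
    exact sum_congr rfl (fun R _ => by ring)
  have e2 : ssum (univ.filter (fun R => blk R = i)) (fun R => a R x + a R y) β =
      Gb blk a β i x + Gb blk a β i y := by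
    unfold ssum Gb
    rw [← sum_add_distrib]
    exact sum_congr rfl (fun R _ => by ring)
  rw [e1, e2, Real.cos_sub, Real.cos_add]
  ring

theorem av_rp_mul (blk : ι → I) (a : ι → P → ℝ) (x y : P) :
    av (fun β : ι → Bool => rp blk a β x * rp blk a β y) = ∏ i, (1 + Cb blk a i x y / 4) := by
  unfold rp
  simp_rw [← prod_mul_distrib]
  rw [av_prod_of_blk blk (fun i β => (1 + 1 / 2 * Real.sin (Gb blk a β i x)) *
    (1 + 1 / 2 * Real.sin (Gb blk a β i y)))]
  · refine prod_congr rfl (fun i _ => ?_)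
    have e1 : ∀ β : ι → Bool, (1 + 1 / 2 * Real.sin (Gb blk a β i x)) *
        (1 + 1 / 2 * Real.sin (Gb blk a β i y)) =
        (1 + 1 / 2 * Real.sin (Gb blk a β i x)) + (1 / 2 * Real.sin (Gb blk a β i y) +
          1 / 4 * (Real.sin (Gb blk a β i x) * Real.sin (Gb blk a β i y))) := by
      intro β; ring
    rw [av_congr e1, av_add, av_factor, av_add, av_const_mul, av_const_mul]
    have := av_sin_ssum (univ.filter (fun R => blk R = i)) (fun R => a R y)
    rw [av_congr (fun β => congrArg Real.sin (Gb_eq blk a β i y)), this]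
    unfold Cb
    ring
  · intro i β β' h
    change (1 + 1 / 2 * Real.sin (Gb blk a β i x)) * (1 + 1 / 2 * Real.sin (Gb blk a β i y)) =
      (1 + 1 / 2 * Real.sin (Gb blk a β' i x)) * (1 + 1 / 2 * Real.sin (Gb blk a β' i y))
    rw [Gb_congr blk a i x β β' h, Gb_congr blk a i y β β' h]

theorem av_sg_rp (blk : ι → I) (a : ι → P → ℝ) (R : ι) (x : P) :
    av (fun β : ι → Bool => sg (β R) * rp blk a β x) = 1 / 2 * sa blk a R x := by
  have e0 : ∀ β : ι → Bool, sg (β R) * rp blk a β x =
      ∏ i, ((if i = blk R then sg (β R) else 1) * (1 + 1 / 2 * Real.sin (Gb blk a β i x))) := by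
    intro β
    rw [prod_mul_distrib, prod_ite_eq' univ (blk R) (fun _ => sg (β R)), if_pos (mem_univ _)]
    rfl
  rw [av_congr e0, av_prod_of_blk blk (fun i β => (if i = blk R then sg (β R) else 1) *
    (1 + 1 / 2 * Real.sin (Gb blk a β i x)))]
  · rw [Finset.prod_eq_single (blk R)]
    · simp only [if_true]
      have e1 : ∀ β : ι → Bool, sg (β R) * (1 + 1 / 2 * Real.sin (Gb blk a β (blk R) x)) =
          sg (β R) + 1 / 2 * (sg (β R) * Real.sin (Gb blk a β (blk R) x)) := by
        intro β; ring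
      rw [av_congr e1, av_add, av_const_mul, av_sg]
      have hR : R ∈ univ.filter (fun R' => blk R' = blk R) := by simp
      have := av_sg_sin_ssum hR (fun R' => a R' x)
      rw [av_congr (fun β => congrArg (fun z => sg (β R) * Real.sin z)
        (Gb_eq blk a β (blk R) x)), this, sa_eq]
      ring
    · intro i _ hi
      simp only [if_neg hi, one_mul]
      exact av_factor blk a i x
    · intro h
      exact absurd (mem_univ _) h
  · intro i β β' h
    change (if i = blk R then sg (β R) else 1) * (1 + 1 / 2 * Real.sin (Gb blk a β i x)) =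
      (if i = blk R then sg (β' R) else 1) * (1 + 1 / 2 * Real.sin (Gb blk a β' i x))
    rw [Gb_congr blk a i x β β' h]
    split_ifs with hi
    · rw [h R hi.symm]
    · rfl

theorem av_nl_mul (blk : ι → I) (a : ι → P → ℝ) (x y : P) :
    av (fun β : ι → Bool => nl blk a β x * nl blk a β y) =
      ∏ i, (1 + Cb blk a i x y / 4) - 1 - 1 / 4 * ∑ R, sa blk a R x * sa blk a R y := by
  have e1 : ∀ β : ι → Bool, nl blk a β x * nl blk a β y =
      (rp blk a β x * rp blk a β y - (rp blk a β x + rp blk a β y)) +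
      (1 - ((1 / 2 * ∑ R, sa blk a R y * (sg (β R) * rp blk a β x)) +
        (1 / 2 * ∑ R, sa blk a R x * (sg (β R) * rp blk a β y)))) +
      ((1 / 2 * ((∑ R, sa blk a R x * sg (β R)) + (∑ R, sa blk a R y * sg (β R)))) +
        1 / 4 * ((∑ R, sg (β R) * sa blk a R x) * (∑ R, sg (β R) * sa blk a R y))) := by
    intro β
    have f1 : ∑ R, sa blk a R y * (sg (β R) * rp blk a β x) =
        rp blk a β x * ∑ R, sg (β R) * sa blk a R y := by
      rw [mul_sum]; exact sum_congr rfl (fun R _ => by ring)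
    have f2 : ∑ R, sa blk a R x * (sg (β R) * rp blk a β y) =
        rp blk a β y * ∑ R, sg (β R) * sa blk a R x := by
      rw [mul_sum]; exact sum_congr rfl (fun R _ => by ring)
    have f3 : ∀ z, ∑ R, sa blk a R z * sg (β R) = ∑ R, sg (β R) * sa blk a R z :=
      fun z => sum_congr rfl (fun R _ => by ring)
    rw [f1, f2, f3, f3]
    unfold nl
    ring
  rw [av_congr e1, av_add, av_add, av_sub, av_add, av_rp_mul, av_rp_one, av_rp_one,
    av_sub (fun _ : ι → Bool => (1 : ℝ)), av_const (1 : ℝ), av_add, av_const_mul, av_const_mul,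
    av_sum', av_sum', av_add, av_const_mul, av_add, av_sum', av_sum', av_const_mul, av_lin_mul]
  simp_rw [av_const_mul, av_sg_rp, av_sg, mul_zero, sum_const_zero]
  have f4 : ∀ z w : P, ∑ R, sa blk a R z * (1 / 2 * sa blk a R w) =
      1 / 2 * ∑ R, sa blk a R z * sa blk a R w := by
    intro z w
    rw [mul_sum]; exact sum_congr rfl (fun R _ => by ring)
  rw [f4, f4]
  have f5 : ∑ R, sa blk a R y * sa blk a R x = ∑ R, sa blk a R x * sa blk a R y :=
    sum_congr rfl (fun R _ => by ring)
  rw [f5]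
  ring

theorem av_nl_mul_le (blk : ι → I) (a : ι → P → ℝ) (x y : P) :
    |av fun β : ι → Bool => nl blk a β x * nl blk a β y| ≤
      (∑ R, |a R x * a R y|) ^ 2 * Real.exp (2 * ∑ R, |a R x * a R y|) := by
  rw [av_nl_mul]
  set s : ι → ℝ := fun R => |a R x * a R y| with hs
  have hs0 : ∀ R, 0 ≤ s R := fun R => abs_nonneg _
  set Sb : I → ℝ := fun i => ∑ R ∈ univ.filter (fun R => blk R = i), s R with hSb
  have hSb0 : ∀ i, 0 ≤ Sb i := fun i => sum_nonneg (fun R _ => hs0 R)
  have hS : ∑ i, Sb i = ∑ R, s R := by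
    rw [hSb]
    exact sum_fiberwise univ blk s
  set S := ∑ R, s R with hSdef
  have hS0 : 0 ≤ S := sum_nonneg (fun R _ => hs0 R)
  have hSbS : ∀ i, Sb i ≤ S := fun i => by
    rw [← hS]; exact single_le_sum (fun i _ => hSb0 i) (mem_univ i)
  -- bound of the sines
  have hq : ∀ R, |Real.sin (a R x) * Real.sin (a R y)| ≤ s R := by
    intro R
    rw [hs, abs_mul]
    change _ ≤ |a R x * a R y|
    rw [abs_mul]
    exact mul_le_mul Real.abs_sin_le_abs Real.abs_sin_le_abs (abs_nonneg _) (abs_nonneg _)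
  have hp : ∀ R, |Real.cos (a R x) * Real.cos (a R y)| ≤ 1 := by
    intro R
    rw [abs_mul]
    exact mul_le_one₀ (Real.abs_cos_le_one _) (abs_nonneg _) (Real.abs_cos_le_one _)
  -- the covariances
  have hC1 : ∀ i, |Cb blk a i x y| ≤ Sb i := by
    intro i
    rw [Cb_eq, abs_mul, abs_of_pos (show (0 : ℝ) < 1 / 2 by norm_num)]
    have h := (abs_prod_sub_prod_le (univ.filter (fun R => blk R = i))
      (fun R => Real.cos (a R x - a R y)) (fun R => Real.cos (a R x + a R y))
      (fun R _ => Real.abs_cos_le_one _) (fun R _ => Real.abs_cos_le_one _)).2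
    have h2 : ∑ R ∈ univ.filter (fun R => blk R = i),
        |Real.cos (a R x - a R y) - Real.cos (a R x + a R y)| ≤ 2 * Sb i := by
      rw [hSb, mul_sum]
      refine sum_le_sum (fun R _ => ?_)
      rw [Real.cos_sub, Real.cos_add]
      have e : Real.cos (a R x) * Real.cos (a R y) + Real.sin (a R x) * Real.sin (a R y) -
          (Real.cos (a R x) * Real.cos (a R y) - Real.sin (a R x) * Real.sin (a R y)) =
          2 * (Real.sin (a R x) * Real.sin (a R y)) := by ring
      rw [e, abs_mul, abs_of_pos (show (0 : ℝ) < 2 by norm_num)]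
      have := hq R
      linarith
    linarith
  set Tb : I → ℝ := fun i => ∑ R ∈ univ.filter (fun R => blk R = i),
    sa blk a R x * sa blk a R y with hTb
  have hT : ∑ i, Tb i = ∑ R, sa blk a R x * sa blk a R y := by
    rw [hTb]
    exact sum_fiberwise univ blk (fun R => sa blk a R x * sa blk a R y)
  have hC2 : ∀ i, |Cb blk a i x y - Tb i| ≤ Sb i ^ 2 / 2 * Real.exp (Sb i) := by
    intro i
    set B := univ.filter (fun R => blk R = i) with hB
    have h1 := prod_add_sub_first B (fun R => Real.cos (a R x) * Real.cos (a R y))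
      (fun R => Real.sin (a R x) * Real.sin (a R y)) s (fun R _ => hp R) (fun R _ => hq R)
    have h2 := prod_add_sub_first B (fun R => Real.cos (a R x) * Real.cos (a R y))
      (fun R => -(Real.sin (a R x) * Real.sin (a R y))) s (fun R _ => hp R)
      (fun R _ => by rw [abs_neg]; exact hq R)
    have e3 : Tb i = ∑ R ∈ B, (Real.sin (a R x) * Real.sin (a R y)) *
        ∏ R' ∈ B.erase R, (Real.cos (a R' x) * Real.cos (a R' y)) := by
      rw [hTb]
      refine sum_congr rfl (fun R hR => ?_)
      have hRi : blk R = i := (mem_filter.1 hR).2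
      rw [sa_eq, sa_eq, hRi, ← hB, prod_mul_distrib]
      ring
    have e4 : Cb blk a i x y = 1 / 2 * (∏ R ∈ B, (Real.cos (a R x) * Real.cos (a R y) +
        Real.sin (a R x) * Real.sin (a R y)) - ∏ R ∈ B, (Real.cos (a R x) * Real.cos (a R y) +
        -(Real.sin (a R x) * Real.sin (a R y)))) := by
      rw [Cb_eq]
      congr 2
      · exact prod_congr rfl (fun R _ => Real.cos_sub _ _)
      · exact prod_congr rfl (fun R _ => by rw [Real.cos_add]; ring)
    simp only [neg_mul, sum_neg_distrib] at h2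
    rw [← e3] at h1 h2
    change |_ - _ - Tb i| ≤ Sb i ^ 2 / 2 * Real.exp (Sb i) at h1
    change |_ - _ - -Tb i| ≤ Sb i ^ 2 / 2 * Real.exp (Sb i) at h2
    rw [e4]
    set X := ∏ R ∈ B, (Real.cos (a R x) * Real.cos (a R y) + Real.sin (a R x) * Real.sin (a R y))
    set Y := ∏ R ∈ B, (Real.cos (a R x) * Real.cos (a R y) +
      -(Real.sin (a R x) * Real.sin (a R y)))
    set Z := ∏ R ∈ B, Real.cos (a R x) * Real.cos (a R y)
    have e5 : 1 / 2 * (X - Y) - Tb i = 1 / 2 * (X - Z - Tb i) - 1 / 2 * (Y - Z - -Tb i) := by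
      ring
    rw [e5]
    refine (abs_sub _ _).trans ?_
    rw [abs_mul, abs_mul, abs_of_pos (show (0 : ℝ) < 1 / 2 by norm_num)]
    linarith
  -- the product over the blocks
  have h3 := prod_add_sub_first (univ : Finset I) (fun _ => (1 : ℝ))
    (fun i => Cb blk a i x y / 4) (fun i => Sb i / 4) (fun _ _ => by simp) (fun i _ => by
      rw [abs_div, abs_of_pos (show (0 : ℝ) < 4 by norm_num)]
      have := hC1 i
      linarith)
  simp only [prod_const_one, mul_one] at h3
  rw [← sum_div, ← sum_div, hS] at h3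
  rw [← hT]
  have e6 : ∏ i, (1 + Cb blk a i x y / 4) - 1 - 1 / 4 * ∑ i, Tb i =
      (∏ i, (1 + Cb blk a i x y / 4) - 1 - (∑ i, Cb blk a i x y) / 4) +
        1 / 4 * ∑ i, (Cb blk a i x y - Tb i) := by
    rw [sum_sub_distrib]; ring
  rw [e6]
  refine (abs_add_le _ _).trans ?_
  have h4 : |1 / 4 * ∑ i, (Cb blk a i x y - Tb i)| ≤ S ^ 2 / 8 * Real.exp S := by
    rw [abs_mul, abs_of_pos (show (0 : ℝ) < 1 / 4 by norm_num)]
    have h5 : |∑ i, (Cb blk a i x y - Tb i)| ≤ ∑ i, Sb i * (S / 2 * Real.exp S) := by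
      refine (abs_sum_le_sum_abs _ _).trans (sum_le_sum (fun i _ => (hC2 i).trans ?_))
      have h6 : Real.exp (Sb i) ≤ Real.exp S := Real.exp_le_exp.2 (hSbS i)
      have h7 := hSb0 i
      have h8 := hSbS i
      calc Sb i ^ 2 / 2 * Real.exp (Sb i) = Sb i * (Sb i / 2 * Real.exp (Sb i)) := by ring
        _ ≤ Sb i * (S / 2 * Real.exp S) := by gcongr
    rw [← sum_mul, hS] at h5
    calc 1 / 4 * |∑ i, (Cb blk a i x y - Tb i)| ≤ 1 / 4 * (S * (S / 2 * Real.exp S)) := by
          gcongr
      _ = _ := by ring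
  have h5 : (S / 4) ^ 2 / 2 * Real.exp (S / 4) ≤ S ^ 2 / 32 * Real.exp S := by
    have : Real.exp (S / 4) ≤ Real.exp S := Real.exp_le_exp.2 (by linarith)
    calc (S / 4) ^ 2 / 2 * Real.exp (S / 4) = S ^ 2 / 32 * Real.exp (S / 4) := by ring
      _ ≤ _ := by gcongr
  have h6 : Real.exp S ≤ Real.exp (2 * S) := Real.exp_le_exp.2 (by linarith)
  have h7 : 0 ≤ S ^ 2 * Real.exp S := by positivity
  have h8 : S ^ 2 * Real.exp S ≤ S ^ 2 * Real.exp (2 * S) := by gcongr
  have h9 := h3.trans h5
  linarith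

end chaos

end Pool.Agent.Helper11.SB
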